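import Pool.Agent.Helper70.DGL.Fr
import Pool.Agent.Helper68.DG.A2

/-! Project DGL (MP_800410_an), piece UR: uniform bounds for bounded solutions -/

set_option autoImplicit false

open MeasureTheory Metric Set Filter Topology
open scoped ContDiff

namespace Pool.Agent.Helper67.DGL

open Pool.Agent.Helper68.DG Pool.Agent.Helper70.DGL

/-- the first derivatives, constant in front -/
theorem ur1 (ι : Type) [Fintype ι] (M : ℝ) :
    ∃ K : ℝ, ∀ u : V ι → ℝ, ContDiff ℝ 2 u → (∀ x, |u x| ≤ M) →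
      (∀ x, lap u x + u x - u x ^ 3 = 0) →
      (∀ x, ‖fderiv ℝ u x‖ ≤ K) ∧
        ∀ x y, ‖fderiv ℝ u x - fderiv ℝ u y‖ ≤ K * ‖x - y‖ := by
  classical
  obtain ⟨G, hG⟩ : ∃ G : ℝ, G = Fintype.card ι * (2 * Fintype.card ι * M + (M ^ 3 + M)) :=
    ⟨_, rfl⟩
  obtain ⟨L, hL⟩ : ∃ L : ℝ,
      L = Fintype.card ι * (2 * Fintype.card ι * G + (1 + 3 * M ^ 2) * G) := ⟨_, rfl⟩
  refine ⟨G + L, fun u hu hM heq => ?_⟩
  have hM0 : 0 ≤ M := (abs_nonneg _).trans (hM 0)
  have hn : (0 : ℝ) ≤ Fintype.card ι := Nat.cast_nonneg _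
  have hlap : ∀ x, lap u x = u x ^ 3 - u x := fun x => by linarith [heq x]
  have hlapb : ∀ x, |lap u x| ≤ M ^ 3 + M := by
    intro x
    rw [hlap]
    have h3 : |u x ^ 3| ≤ M ^ 3 := by
      rw [abs_pow]; exact pow_le_pow_left₀ (abs_nonneg _) (hM x) 3
    exact (abs_sub _ _).trans (add_le_add h3 (hM x))
  have hG0 : 0 ≤ G := by rw [hG]; positivity
  have hgrad : ∀ x, ‖fderiv ℝ u x‖ ≤ G := fun x => by
    rw [hG]
    exact a2a_norm_le fun i => grad_est hu hM hlapb i x
  have hdiff : Differentiable ℝ u := hu.differentiable two_ne_zero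
  have hlip : ∀ x y, |u x - u y| ≤ G * ‖x - y‖ := by
    intro x y
    have h := Convex.norm_image_sub_le_of_norm_fderiv_le (𝕜 := ℝ) (f := u) (s := Set.univ)
      (fun z _ => hdiff z) (fun z _ => hgrad z) convex_univ (Set.mem_univ y) (Set.mem_univ x)
    simpa using h
  have hL0 : 0 ≤ L := by rw [hL]; positivity
  have hfd : ∀ x y, ‖fderiv ℝ u x - fderiv ℝ u y‖ ≤ L * ‖x - y‖ := by
    intro x y
    obtain ⟨a, ha⟩ : ∃ a : V ι, a = x - y := ⟨_, rfl⟩
    have hua : ContDiff ℝ 2 (fun z => u (z + a)) := hu.comp (contDiff_id.add contDiff_const)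
    have hh : ContDiff ℝ 2 (fun z => u (z + a) - u z) := hua.sub hu
    have hA : ∀ z, |u (z + a) - u z| ≤ G * ‖a‖ := by
      intro z
      have h := hlip (z + a) z
      simpa using h
    have hB : ∀ z, |lap (fun z => u (z + a) - u z) z| ≤ (1 + 3 * M ^ 2) * (G * ‖a‖) := by
      intro z
      rw [lap_sub hua hu, lap_translate, hlap, hlap]
      refine (a2a_cube (hM _) (hM _)).trans ?_
      exact mul_le_mul_of_nonneg_left (hA z) (by positivity)
    have h1 : ‖fderiv ℝ (fun z => u (z + a) - u z) y‖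
        ≤ Fintype.card ι * (2 * Fintype.card ι * (G * ‖a‖) + (1 + 3 * M ^ 2) * (G * ‖a‖)) :=
      a2a_norm_le fun i => grad_est hh hA hB i y
    have h2 : fderiv ℝ (fun z => u (z + a) - u z) y = fderiv ℝ u x - fderiv ℝ u y := by
      rw [fderiv_fun_sub ((hua.differentiable two_ne_zero) y) (hdiff y), fderiv_comp_add_right]
      have : y + a = x := by rw [ha]; abel
      rw [this]
    rw [h2] at h1
    calc ‖fderiv ℝ u x - fderiv ℝ u y‖
        ≤ Fintype.card ι * (2 * Fintype.card ι * (G * ‖a‖) + (1 + 3 * M ^ 2) * (G * ‖a‖)) := h1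
      _ = L * ‖x - y‖ := by rw [hL, ha]; ring
  refine ⟨fun x => (hgrad x).trans (by linarith), fun x y => (hfd x y).trans ?_⟩
  exact mul_le_mul_of_nonneg_right (by linarith) (norm_nonneg _)

/-- the second derivatives, constant in front -/
theorem ur2 (ι : Type) [Fintype ι] (M K : ℝ) :
    ∃ K' : ℝ, ∀ u : V ι → ℝ, ContDiff ℝ 2 u → (∀ x, |u x| ≤ M) →
      (∀ x, lap u x + u x - u x ^ 3 = 0) → (∀ x, ‖fderiv ℝ u x‖ ≤ K) →
      (∀ x y, ‖fderiv ℝ u x - fderiv ℝ u y‖ ≤ K * ‖x - y‖) →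
      ∀ x y, ‖fderiv ℝ (fderiv ℝ u) x - fderiv ℝ (fderiv ℝ u) y‖ ≤ K' * ‖x - y‖ := by
  classical
  obtain ⟨L, hLdef⟩ : ∃ L : ℝ, L = (3 * M ^ 2 + 1) * K + 6 * M * K ^ 2 := ⟨_, rfl⟩
  obtain ⟨c, hc⟩ : ∃ c : ℝ, c = 2 * Fintype.card ι * K + L := ⟨_, rfl⟩
  refine ⟨Fintype.card ι * c, fun u hu hM heq hK hL => ?_⟩
  have hM0 : 0 ≤ M := (abs_nonneg _).trans (hM 0)
  have hK0 : 0 ≤ K := (norm_nonneg _).trans (hK 0)
  have hd : Differentiable ℝ u := hu.differentiable two_ne_zero
  have hlap : ∀ x, lap u x = u x ^ 3 - u x := fun x => by linarith [heq x]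
  have hL0 : 0 ≤ L := by rw [hLdef]; positivity
  have hc0 : 0 ≤ c := by rw [hc]; positivity
  have hlp : ∀ x y : V ι, ‖fderiv ℝ (fun y => u y ^ 3 - u y) x -
      fderiv ℝ (fun y => u y ^ 3 - u y) y‖ ≤ L * ‖x - y‖ := fun x y => by
    rw [hLdef]
    exact a2b_lip hd hM hK hL x y
  -- the second differences of the first derivatives
  have h1 : ∀ (i : ι) (a b y : V ι), |(pd i u (y + b + a) - pd i u (y + b)) -
      (pd i u (y + a) - pd i u y)| ≤ c * ‖a‖ * ‖b‖ := by
    intro i a b y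
    have s1 : ContDiff ℝ 2 (fun z => u (z + a)) := hu.comp (contDiff_id.add contDiff_const)
    obtain ⟨g, hg⟩ : ∃ g : V ι → ℝ, g = fun w => u (w + a) - u w := ⟨_, rfl⟩
    have hgz : ∀ z, g z = u (z + a) - u z := fun z => by rw [hg]
    have s2 : ContDiff ℝ 2 g := by rw [hg]; exact s1.sub hu
    have s3 : ContDiff ℝ 2 (fun z => g (z + b)) := s2.comp (contDiff_id.add contDiff_const)
    have s4 : ContDiff ℝ 2 (fun z => g (z + b) - g z) := s3.sub s2
    have hA : ∀ z, |g (z + b) - g z| ≤ K * ‖a‖ * ‖b‖ := fun z => by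
      rw [hgz, hgz]
      exact a2b_second hd hL a b z
    have hlg : ∀ z, lap g z = lap u (z + a) - lap u z := fun z => by
      rw [hg, lap_sub s1 hu, lap_translate]
    have hB : ∀ z, |lap (fun z => g (z + b) - g z) z| ≤ L * ‖a‖ * ‖b‖ := by
      intro z
      rw [lap_sub s3 s2, lap_translate g b z, hlg, hlg, hlap, hlap, hlap, hlap]
      exact a2b_second (f := fun y => u y ^ 3 - u y)
        (fun x => (a2b_fderiv hd x).differentiableAt) hlp a b z
    have h2 := grad_est s4 hA hB i y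
    have e1 : ∀ z, pd i g z = pd i u (z + a) - pd i u z := by
      intro z
      rw [hg, pd_sub ((s1.differentiable two_ne_zero) z) (hd z), pd_translate]
    rw [pd_sub ((s3.differentiable two_ne_zero) y) ((s2.differentiable two_ne_zero) y),
      pd_translate g b i y, e1, e1] at h2
    refine h2.trans (le_of_eq ?_)
    rw [hc]
    ring
  -- the differentials of the first derivatives
  have h2 : ∀ (i : ι) (a y : V ι), ‖fderiv ℝ (pd i u) (y + a) - fderiv ℝ (pd i u) y‖ ≤
      c * ‖a‖ := by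
    intro i a y
    have hp : Differentiable ℝ (pd i u) := (contDiff_pd_one hu i).differentiable one_ne_zero
    have e1 : fderiv ℝ (fun z => pd i u (z + a) - pd i u z) y =
        fderiv ℝ (pd i u) (y + a) - fderiv ℝ (pd i u) y := by
      have h3 : HasFDerivAt (fun z => pd i u (z + a)) (fderiv ℝ (pd i u) (y + a)) y :=
        (hasFDerivAt_comp_add_right a).2 (hp (y + a)).hasFDerivAt
      exact (h3.sub (hp y).hasFDerivAt).fderiv
    rw [← e1]
    refine norm_fderiv_le_of_lip' ℝ (by positivity) (Filter.Eventually.of_forall fun x => ?_)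
    have h3 := h1 i a (x - y) y
    rw [add_sub_cancel] at h3
    rw [Real.norm_eq_abs]
    exact h3
  -- the second derivatives
  have h3 : ∀ (i : ι) (y b : V ι), fderiv ℝ (pd i u) y b = fderiv ℝ (fderiv ℝ u) y b (be i) := by
    intro i y b
    have h4 : DifferentiableAt ℝ (fderiv ℝ u) y :=
      ((hu.fderiv_right (m := 1) (by norm_num)).differentiable one_ne_zero) y
    have h5 := (h4.hasFDerivAt.clm_apply (hasFDerivAt_const (be i) y)).fderiv
    unfold pd
    rw [h5]
    simp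
  intro x y
  refine ContinuousLinearMap.opNorm_le_bound _ (by positivity) fun b => ?_
  refine (norm_clm_le_sum _).trans ?_
  have h4 : ∀ i ∈ (Finset.univ : Finset ι),
      |((fderiv ℝ (fderiv ℝ u) x - fderiv ℝ (fderiv ℝ u) y) b) (be i)| ≤
        c * ‖x - y‖ * ‖b‖ := by
    intro i _
    have h5 := h2 i (x - y) y
    rw [add_sub_cancel] at h5
    have h6 := (fderiv ℝ (pd i u) x - fderiv ℝ (pd i u) y).le_opNorm b
    rw [Real.norm_eq_abs] at h6
    have e2 : ((fderiv ℝ (fderiv ℝ u) x - fderiv ℝ (fderiv ℝ u) y) b) (be i) =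
        (fderiv ℝ (pd i u) x - fderiv ℝ (pd i u) y) b := by
      simp only [_root_.sub_apply]
      rw [h3, h3]
    rw [e2]
    exact h6.trans (mul_le_mul_of_nonneg_right h5 (norm_nonneg _))
  refine (Finset.sum_le_sum h4).trans (le_of_eq ?_)
  rw [Finset.sum_const, Finset.card_univ, nsmul_eq_mul]
  ring

/-- piece UR -/
theorem s_UR : S_UR := by
  intro ι _ M
  obtain ⟨K, hK⟩ := ur1 ι M
  obtain ⟨K', hK'⟩ := ur2 ι M K
  refine ⟨max M (max K K'), fun u hu hM heq => ?_⟩
  obtain ⟨h1, h2⟩ := hK u hu hM heq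
  have h3 := hK' u hu hM heq h1 h2
  refine ⟨hu, heq, fun x => (hM x).trans (le_max_left _ _), fun x =>
    (h1 x).trans ((le_max_left _ _).trans (le_max_right _ _)), fun x y => (h2 x y).trans ?_,
    fun x y => (h3 x y).trans ?_⟩
  · exact mul_le_mul_of_nonneg_right ((le_max_left _ _).trans (le_max_right _ _)) (norm_nonneg _)
  · exact mul_le_mul_of_nonneg_right ((le_max_right _ _).trans (le_max_right _ _))
      (norm_nonneg _)

end Pool.Agent.Helper67.DGL
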